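import Pool.Agent.Helper57.TW.Goals

/-!
# Project T74, block B: packet NV (one narrow tent)
-/

set_option autoImplicit false

open Finset Filter Topology

open scoped Classical ArithmeticFunction

namespace Pool.Agent.Helper15.TW

open Pool.Agent.Helper57.TW
open Pool.Agent.Helper88.CR (rg)

/-- the parameter `k` -/
noncomputable def kk (B : ℕ) (L : ℝ) : ℕ := ⌈((3 * B + 10 : ℕ) : ℝ) * Real.log L⌉₊

lemma m0_ge (x k : ℕ) (hL : 0 < Real.log x) (hk : 1 ≤ k) :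
    (Real.log x / (Real.exp 1 * k)) ^ k ≤ m0 x k := by
  unfold m0
  set L := Real.log x
  have hk0 : (0 : ℝ) < k := by exact_mod_cast hk
  have he : Real.exp (-(k : ℝ)) = 1 / Real.exp 1 ^ k := by
    rw [Real.exp_neg, ← Real.exp_nat_mul, mul_one, one_div]
  rw [he, div_pow, mul_pow]
  have h1 : (k.factorial : ℝ) ≤ (k : ℝ) ^ k := by exact_mod_cast Nat.factorial_le_pow k
  have h2 : (0 : ℝ) < k.factorial := by exact_mod_cast k.factorial_pos
  have h3 : L ^ k * (1 / Real.exp 1 ^ k) / (k.factorial : ℝ)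
      = L ^ k / (Real.exp 1 ^ k * k.factorial) := by
    field_simp
  rw [h3]
  gcongr

/-- sizes; `y = L^(1/6)` -/
lemma sizes (q0 B : ℕ) (K : ℝ) (hK : 1 ≤ K) (hq : 1 ≤ q0) : ∃ Y : ℝ, 40 ≤ Y ∧ ∀ y : ℝ, Y ≤ y →
    ((kk B (y ^ 6) : ℕ) : ℝ) * (K * Real.exp 1) ≤ y ∧ 6 * B + 6 ≤ kk B (y ^ 6) ∧
    ((3 * B + 10 : ℕ) : ℝ) * Real.log (y ^ 6) ≤ kk B (y ^ 6) ∧
    ((3 * B + 10 : ℕ) : ℝ) * Real.log (y ^ 6) ≤ y ∧
    2 * K ≤ y ∧ Real.log (12 * K * q0) ≤ y := by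
  set A : ℝ := K * Real.exp 1 * ((3 * B + 10 : ℕ) + 1) with hA
  have he : 1 ≤ Real.exp 1 := by have := Real.exp_one_gt_d9; linarith
  have hK0 : 0 < K := by linarith
  have hA0 : 0 < A := by positivity
  have hKe : 1 ≤ K * Real.exp 1 := one_le_mul_of_one_le_of_one_le hK he
  have h1 : ∀ᶠ t : ℝ in atTop, ‖Real.log t‖ ≤ (1 / (6 * A)) * ‖id t‖ :=
    Real.isLittleO_log_id_atTop.def (by positivity)
  obtain ⟨T, hT⟩ := eventually_atTop.1 h1
  refine ⟨max (max T 40) (max (2 * K) (Real.log (12 * K * q0))), ?_, fun y hy => ?_⟩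
  · exact le_trans (le_max_right _ _) (le_max_left _ _)
  have hyT : T ≤ y := le_trans (le_trans (le_max_left _ _) (le_max_left _ _)) hy
  have hy40 : 40 ≤ y := le_trans (le_trans (le_max_right _ _) (le_max_left _ _)) hy
  have hyK : 2 * K ≤ y := le_trans (le_trans (le_max_left _ _) (le_max_right _ _)) hy
  have hyq : Real.log (12 * K * q0) ≤ y :=
    le_trans (le_trans (le_max_right _ _) (le_max_right _ _)) hy
  have hy0 : 0 < y := by linarith
  have h2 := hT y hyT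
  have hly : 1 / 3 ≤ Real.log y := by
    have e1 : (2 : ℝ) ≤ y := by linarith
    have e2 := Real.log_le_log (by norm_num) e1
    have e3 := Real.log_two_gt_d9
    linarith
  rw [Real.norm_of_nonneg (by linarith), id, Real.norm_of_nonneg hy0.le] at h2
  have hl6 : Real.log (y ^ 6) = 6 * Real.log y := by rw [Real.log_pow]; norm_num
  have hAl : A * Real.log (y ^ 6) ≤ y := by
    rw [hl6]
    have : A * (6 * Real.log y) ≤ A * (6 * (1 / (6 * A) * y)) := by gcongr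
    refine le_trans this (le_of_eq ?_)
    field_simp
  have hl2 : 2 ≤ Real.log (y ^ 6) := by rw [hl6]; linarith
  have hk1 : ((3 * B + 10 : ℕ) : ℝ) * Real.log (y ^ 6) ≤ kk B (y ^ 6) := Nat.le_ceil _
  have hk2 : ((kk B (y ^ 6) : ℕ) : ℝ) ≤ (((3 * B + 10 : ℕ) : ℝ) + 1) * Real.log (y ^ 6) := by
    have : ((kk B (y ^ 6) : ℕ) : ℝ) < ((3 * B + 10 : ℕ) : ℝ) * Real.log (y ^ 6) + 1 :=
      Nat.ceil_lt_add_one (by positivity)
    nlinarith
  refine ⟨?_, ?_, hk1, ?_, hyK, hyq⟩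
  · calc ((kk B (y ^ 6) : ℕ) : ℝ) * (K * Real.exp 1)
        ≤ ((((3 * B + 10 : ℕ) : ℝ) + 1) * Real.log (y ^ 6)) * (K * Real.exp 1) := by gcongr
      _ = A * Real.log (y ^ 6) := by rw [hA]; ring
      _ ≤ y := hAl
  · have e1 : ((6 * B + 6 : ℕ) : ℝ) ≤ kk B (y ^ 6) := by
      refine le_trans ?_ hk1
      have : ((3 * B + 10 : ℕ) : ℝ) * 2 ≤ ((3 * B + 10 : ℕ) : ℝ) * Real.log (y ^ 6) := by gcongr
      refine le_trans ?_ this
      push_cast
      nlinarith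
    exact_mod_cast e1
  · refine le_trans ?_ hAl
    have e2 : ((3 * B + 10 : ℕ) : ℝ) ≤ A := by
      rw [hA]
      have : 1 * (((3 * B + 10 : ℕ) : ℝ) + 1) ≤ K * Real.exp 1 * (((3 * B + 10 : ℕ) : ℝ) + 1) := by
        gcongr
      linarith
    have : 0 ≤ Real.log (y ^ 6) := by linarith
    gcongr

/-- all inequalities, in terms of `y` -/
lemma sizes2 (q0 B : ℕ) (K : ℝ) (hK : 1 ≤ K) (hq : 1 ≤ q0) : ∃ Y : ℝ, 40 ≤ Y ∧
    ∀ y : ℝ, Y ≤ y → 6 ≤ kk B (y ^ 6) ∧ ((kk B (y ^ 6) : ℕ) : ℝ) ≤ y ∧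
    -- (b)
    q0 * Real.exp (y ^ 2) * (y ^ 6) ^ B ≤ Real.exp (y ^ 6) ∧
    -- (c)
    2 * (y ^ 6) ^ (2 * B) * (K * y ^ 3) * (K * Real.exp 1 * kk B (y ^ 6) / y ^ 3) ^ kk B (y ^ 6)
      ≤ 1 ∧
    -- (d)
    12 * K * q0 * Real.exp (y ^ 2) * (y ^ 6) ^ (3 * B + 3) * (2 * Real.exp 1) ^ kk B (y ^ 6)
      ≤ Real.exp ((y ^ 3 - 1) / 32) ∧
    -- (e)
    2 * K * Real.exp (-(2 * (kk B (y ^ 6) : ℝ))) * (y ^ 6) ^ B ≤ 1 := by
  obtain ⟨Y, hY, hs⟩ := sizes q0 B K hK hq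
  refine ⟨Y, hY, fun y hy => ?_⟩
  obtain ⟨h1, h2, h3, h4, h5, h6⟩ := hs y hy
  set k := kk B (y ^ 6) with hkd
  have hy40 : 40 ≤ y := le_trans hY hy
  have hy0 : 0 < y := by linarith
  have hy1 : 1 ≤ y := by linarith
  have hK0 : 0 < K := by linarith
  have he : 1 ≤ Real.exp 1 := by have := Real.exp_one_gt_d9; linarith
  have hKe : 1 ≤ K * Real.exp 1 := one_le_mul_of_one_le_of_one_le hK he
  have hk0 : (0 : ℝ) ≤ k := Nat.cast_nonneg _
  have hq0 : (1 : ℝ) ≤ q0 := by exact_mod_cast hq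
  have hky : (k : ℝ) ≤ y := by nlinarith
  have hlog : 0 ≤ Real.log (y ^ 6) := Real.log_nonneg (one_le_pow₀ hy1)
  have hy6 : (0 : ℝ) < y ^ 6 := by positivity
  have hpow : ∀ n : ℕ, (y ^ 6) ^ n = Real.exp (n * Real.log (y ^ 6)) := by
    intro n
    rw [← Real.log_pow, Real.exp_log (by positivity)]
  have hB1 : ((B : ℕ) : ℝ) * Real.log (y ^ 6) ≤ y := by
    refine le_trans ?_ h4
    have : ((B : ℕ) : ℝ) ≤ ((3 * B + 10 : ℕ) : ℝ) := by push_cast; nlinarith [Nat.cast_nonneg (α := ℝ) B]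
    gcongr
  have hB3 : ((3 * B + 3 : ℕ) : ℝ) * Real.log (y ^ 6) ≤ y := by
    refine le_trans ?_ h4
    have : ((3 * B + 3 : ℕ) : ℝ) ≤ ((3 * B + 10 : ℕ) : ℝ) := by push_cast; linarith
    gcongr
  have hlq : Real.log q0 ≤ y := by
    refine le_trans (Real.log_le_log (by linarith) ?_) h6
    nlinarith
  have hq1 : (q0 : ℝ) = Real.exp (Real.log q0) := by rw [Real.exp_log (by linarith)]
  refine ⟨by omega, hky, ?_, ?_, ?_, ?_⟩
  · rw [hpow B, hq1, ← Real.exp_add, ← Real.exp_add]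
    apply Real.exp_le_exp.2
    have e1 : y ^ 6 = y ^ 2 * (y ^ 2) ^ 2 := by ring
    have e2 : (1600 : ℝ) ≤ y ^ 2 := by nlinarith
    have e3 : y ^ 2 * 1600 ≤ y ^ 6 := by
      rw [e1]
      have : (1600 : ℝ) ≤ (y ^ 2) ^ 2 := by nlinarith
      gcongr
    nlinarith
  · have e1 : K * Real.exp 1 * k / y ^ 3 ≤ (y ^ 2)⁻¹ := by
      rw [div_le_iff₀ (by positivity)]
      have : (y ^ 2)⁻¹ * y ^ 3 = y := by field_simp
      rw [this]
      linarith
    have e2 : (K * Real.exp 1 * k / y ^ 3) ^ k ≤ ((y ^ 2)⁻¹) ^ (6 * B + 2) := by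
      have : 0 ≤ K * Real.exp 1 * k / y ^ 3 := by positivity
      calc (K * Real.exp 1 * k / y ^ 3) ^ k ≤ ((y ^ 2)⁻¹) ^ k := by gcongr
        _ ≤ ((y ^ 2)⁻¹) ^ (6 * B + 2) := by
            apply pow_le_pow_of_le_one (by positivity) ?_ (by omega)
            exact inv_le_one_of_one_le₀ (one_le_pow₀ hy1)
    calc 2 * (y ^ 6) ^ (2 * B) * (K * y ^ 3) * (K * Real.exp 1 * k / y ^ 3) ^ k
        ≤ 2 * (y ^ 6) ^ (2 * B) * (K * y ^ 3) * ((y ^ 2)⁻¹) ^ (6 * B + 2) := by gcongr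
      _ = 2 * K / y := by
          rw [← pow_mul, ← inv_pow, ← pow_mul]
          have : y ^ (6 * (2 * B)) * (y⁻¹) ^ (2 * (6 * B + 2)) = (y⁻¹) ^ 4 := by
            rw [show 2 * (6 * B + 2) = 6 * (2 * B) + 4 by ring, pow_add, ← mul_assoc, ← mul_pow,
              mul_inv_cancel₀ (ne_of_gt hy0), one_pow, one_mul]
          calc 2 * y ^ (6 * (2 * B)) * (K * y ^ 3) * (y⁻¹) ^ (2 * (6 * B + 2))
              = 2 * K * y ^ 3 * (y ^ (6 * (2 * B)) * (y⁻¹) ^ (2 * (6 * B + 2))) := by ring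
            _ = 2 * K * y ^ 3 * (y⁻¹) ^ 4 := by rw [this]
            _ = 2 * K / y := by field_simp
      _ ≤ 1 := by rw [div_le_one hy0]; exact h5
  · have e1 : (2 * Real.exp 1) ^ k ≤ Real.exp (2 * k) := by
      have : 2 * Real.exp 1 ≤ Real.exp 2 := by
        have h9 := Real.exp_one_gt_d9
        have : Real.exp 2 = Real.exp 1 * Real.exp 1 := by rw [← Real.exp_add]; norm_num
        rw [this]
        nlinarith
      calc (2 * Real.exp 1) ^ k ≤ (Real.exp 2) ^ k := by gcongr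
        _ = Real.exp (2 * k) := by rw [← Real.exp_nat_mul]; ring_nf
    have e2 : 12 * K * q0 = Real.exp (Real.log (12 * K * q0)) := by
      rw [Real.exp_log (by positivity)]
    calc 12 * K * q0 * Real.exp (y ^ 2) * (y ^ 6) ^ (3 * B + 3) * (2 * Real.exp 1) ^ k
        ≤ 12 * K * q0 * Real.exp (y ^ 2) * (y ^ 6) ^ (3 * B + 3) * Real.exp (2 * k) := by gcongr
      _ = Real.exp (Real.log (12 * K * q0) + y ^ 2 + ((3 * B + 3 : ℕ) : ℝ) * Real.log (y ^ 6)
            + 2 * k) := by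
          rw [Real.exp_add, Real.exp_add, Real.exp_add, ← e2, ← hpow]
      _ ≤ Real.exp ((y ^ 3 - 1) / 32) := by
          apply Real.exp_le_exp.2
          have e3 : y ^ 3 = y * y ^ 2 := by ring
          have e4 : 40 * y ^ 2 ≤ y ^ 3 := by rw [e3]; gcongr
          have e5 : 40 * y ≤ y ^ 2 := by nlinarith
          nlinarith
  · have e1 : Real.exp (-(2 * (k : ℝ))) ≤ Real.exp (-(2 * (((3 * B + 10 : ℕ) : ℝ) * Real.log (y ^ 6)))) := by
      apply Real.exp_le_exp.2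
      linarith
    calc 2 * K * Real.exp (-(2 * (k : ℝ))) * (y ^ 6) ^ B
        ≤ 2 * K * Real.exp (-(2 * (((3 * B + 10 : ℕ) : ℝ) * Real.log (y ^ 6)))) * (y ^ 6) ^ B := by
          gcongr
      _ ≤ 2 * K * (y⁻¹ * ((y ^ 6) ^ B)⁻¹) * (y ^ 6) ^ B := by
          gcongr
          rw [hpow B, ← Real.exp_neg]
          have hyl : Real.log y ≤ Real.log (y ^ 6) := by
            apply Real.log_le_log hy0
            calc y = y ^ 1 := (pow_one y).symm
              _ ≤ y ^ 6 := pow_le_pow_right₀ hy1 (by norm_num)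
          have hyi : y⁻¹ = Real.exp (-Real.log y) := by
            rw [Real.exp_neg, Real.exp_log hy0]
          rw [hyi, ← Real.exp_add]
          apply Real.exp_le_exp.2
          push_cast
          nlinarith [Nat.cast_nonneg (α := ℝ) B, mul_nonneg (Nat.cast_nonneg (α := ℝ) B) hlog]
      _ = 2 * K / y := by field_simp
      _ ≤ 1 := by rw [div_le_one hy0]; exact h5

theorem nv (hNA : StmtNA) (hNB : StmtNB) (hTN : StmtTN) : StmtNV := by
  intro q0 N B hq0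
  obtain ⟨CA, hCA, xA, hA⟩ := hNA
  obtain ⟨K, hK, hB⟩ := hNB
  obtain ⟨xB, hB⟩ := hB q0 N hq0
  obtain ⟨Y, hY, hs⟩ := sizes2 q0 B K hK hq0
  refine ⟨CA + 3, by linarith, max (max xA xB) (max 16 ⌈Real.exp (Y ^ 6)⌉₊), fun x hx => ?_⟩
  have hxA : xA ≤ x := le_trans (le_trans (le_max_left _ _) (le_max_left _ _)) hx
  have hxB : xB ≤ x := le_trans (le_trans (le_max_right _ _) (le_max_left _ _)) hx
  have hx16 : 16 ≤ x := le_trans (le_trans (le_max_left _ _) (le_max_right _ _)) hx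
  have hxY : Real.exp (Y ^ 6) ≤ x :=
    le_trans (Nat.le_ceil _) (by exact_mod_cast le_trans (le_trans (le_max_right _ _) (le_max_right _ _)) hx)
  obtain ⟨p0, hp0, hNp, hpq, hB⟩ := hB x hxB
  refine ⟨p0, hp0, hNp, hpq, fun d hd hpd hdx a ha v η hv1 hv2 hη1 hη2 => ?_⟩
  have hx0 : (0 : ℝ) < x := by exact_mod_cast (by omega : 0 < x)
  set L := Real.log x with hLd
  have hLY : Y ^ 6 ≤ L := by
    rw [hLd, Real.le_log_iff_exp_le hx0]; exact hxY
  have hY0 : 0 < Y := by linarith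
  have hL0 : 0 < L := lt_of_lt_of_le (by positivity) hLY
  -- y
  set y := L ^ (1 / 6 : ℝ) with hyd
  have hy6 : y ^ 6 = L := by
    rw [hyd, ← Real.rpow_natCast, ← Real.rpow_mul hL0.le]; norm_num
  have hy0 : 0 < y := Real.rpow_pos_of_pos hL0 _
  have hyY : Y ≤ y := by
    by_contra hc
    push Not at hc
    have : y ^ 6 < Y ^ 6 := pow_lt_pow_left₀ hc hy0.le (by norm_num)
    linarith
  have hy3 : √L = y ^ 3 := by
    rw [Real.sqrt_eq_rpow, hyd, ← Real.rpow_natCast, ← Real.rpow_mul hL0.le]; norm_num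
  have hy2 : L ^ (1 / 3 : ℝ) = y ^ 2 := by
    rw [hyd, ← Real.rpow_natCast, ← Real.rpow_mul hL0.le]; norm_num
  obtain ⟨h6, hky, hb, hc, hdd, he⟩ := hs y hyY
  rw [hy6] at h6 hky hb hc hdd he
  set k := kk B L with hkd
  have hy40 : 40 ≤ y := le_trans hY hyY
  have hy1 : 1 ≤ y := by linarith
  have hL1 : 1 ≤ L := by rw [← hy6]; exact one_le_pow₀ hy1
  have hk0 : (0 : ℝ) < k := by exact_mod_cast (by omega : 0 < k)
  have hk1 : (1 : ℝ) ≤ k := by exact_mod_cast (by omega : 1 ≤ k)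
  have hk4 : (k : ℝ) ^ 4 ≤ L := by
    calc (k : ℝ) ^ 4 ≤ y ^ 4 := by gcongr
      _ ≤ y ^ 6 := pow_le_pow_right₀ hy1 (by norm_num)
      _ = L := hy6
  have hk2 : (k : ℝ) ^ 2 ≤ L := le_trans (pow_le_pow_right₀ hk1 (by norm_num)) hk4
  have hkL : (k : ℝ) + 1 ≤ L := by
    have : (k : ℝ) + 1 ≤ y * y := by nlinarith
    calc (k : ℝ) + 1 ≤ y ^ 2 := by rw [sq]; exact this
      _ ≤ y ^ 6 := pow_le_pow_right₀ hy1 (by norm_num)
      _ = L := hy6
  have hd0 : d ≠ 0 := hd.ne_zero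
  have hqd : 1 ≤ q0 * d := Nat.one_le_iff_ne_zero.2 (by positivity)
  have hφ0 : (0 : ℝ) < (Nat.totient (q0 * d) : ℝ) := by
    exact_mod_cast Nat.totient_pos.2 (by omega)
  have hqr : ((q0 * d : ℕ) : ℝ) ≤ q0 * Real.exp (y ^ 2) := by
    push_cast
    rw [hy2] at hdx
    gcongr
  have hφq : (Nat.totient (q0 * d) : ℝ) ≤ q0 * Real.exp (y ^ 2) := by
    refine le_trans ?_ hqr
    exact_mod_cast Nat.totient_le _
  have hLB : 0 < L ^ B := by positivity
  have hη0 : 0 < η := lt_of_lt_of_le (by positivity) hη1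
  have hηL : 1 ≤ η * L ^ B := by
    rw [div_le_iff₀ hLB] at hη1; exact hη1
  have hexpL : Real.exp L = x := Real.exp_log hx0
  have hqη : ((q0 * d : ℕ) : ℝ) ≤ η * x := by
    rw [hexpL] at hb
    have h1 : q0 * Real.exp (y ^ 2) * (η * L ^ B) ≤ η * x := by
      calc q0 * Real.exp (y ^ 2) * (η * L ^ B) = η * (q0 * Real.exp (y ^ 2) * L ^ B) := by ring
        _ ≤ η * x := by gcongr
    refine le_trans hqr (le_trans ?_ h1)
    have : 0 ≤ q0 * Real.exp (y ^ 2) := by positivity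
    calc q0 * Real.exp (y ^ 2) = q0 * Real.exp (y ^ 2) * 1 := (mul_one _).symm
      _ ≤ q0 * Real.exp (y ^ 2) * (η * L ^ B) := by gcongr
  have HA := hA x k (q0 * d) a hxA (by omega) hk2 hqd v η hv1 hv2 hη0 hη2 hqη
  have HB := hB d hd hpd hdx a ha k (by omega) hk4 v η hv1 hv2 hη0 hη2 hqη
  obtain ⟨-, -, HT⟩ := hTN x k hx16 (by omega)
  try rw [← hLd] at HA
  try rw [← hLd] at HB
  try rw [← hLd] at HT
  rw [hy3] at HB
  set S := |∑ n ∈ (Icc 1 (4 * x)).filter (rg (zx x)),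
      fk x k n * te v η n *
        ((if n ≡ a [MOD q0 * d] then 1 else 0) - 1 / (Nat.totient (q0 * d) : ℝ))| with hSd
  set φ : ℝ := (Nat.totient (q0 * d) : ℝ) with hφd
  set T : ℝ := ∑' n, fk x k n with hTd
  have hm0 : (L / (Real.exp 1 * k)) ^ k ≤ m0 x k := m0_ge x k hL0 (by omega)
  have he0 : 0 < Real.exp 1 := Real.exp_pos 1
  have hmp : 0 < m0 x k := lt_of_lt_of_le (by positivity) hm0
  set M := m0 x k with hMd
  have hK0 : 0 < K := by linarith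
  -- the first term
  have t1 : 2 * x / M * (1 / φ * (K * y ^ 3) ^ (k + 1)) ≤ η ^ 2 * (x * L) / φ := by
    have e1 : (K * y ^ 3) ^ k = (K * Real.exp 1 * k / y ^ 3) ^ k * (L / (Real.exp 1 * k)) ^ k := by
      rw [← mul_pow]
      congr 1
      rw [← hy6]
      field_simp
    have e2 : 2 * L ^ (2 * B) * (K * y ^ 3) ^ (k + 1) ≤ M := by
      calc 2 * L ^ (2 * B) * (K * y ^ 3) ^ (k + 1)
          = (2 * L ^ (2 * B) * (K * y ^ 3) * (K * Real.exp 1 * k / y ^ 3) ^ k)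
              * (L / (Real.exp 1 * k)) ^ k := by rw [pow_succ, e1]; ring
        _ ≤ 1 * (L / (Real.exp 1 * k)) ^ k := by gcongr
        _ ≤ M := by rw [one_mul]; exact hm0
    have e3 : 2 * (K * y ^ 3) ^ (k + 1) ≤ η ^ 2 * L * M := by
      have e4 : 1 ≤ η ^ 2 * L ^ (2 * B) := by
        calc (1 : ℝ) = 1 ^ 2 := by norm_num
          _ ≤ (η * L ^ B) ^ 2 := by gcongr
          _ = η ^ 2 * L ^ (2 * B) := by rw [mul_pow, ← pow_mul]; ring_nf
      calc 2 * (K * y ^ 3) ^ (k + 1) = 1 * (2 * (K * y ^ 3) ^ (k + 1)) := (one_mul _).symm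
        _ ≤ (η ^ 2 * L ^ (2 * B)) * (2 * (K * y ^ 3) ^ (k + 1)) := by gcongr
        _ = η ^ 2 * (2 * L ^ (2 * B) * (K * y ^ 3) ^ (k + 1)) := by ring
        _ ≤ η ^ 2 * M := by gcongr
        _ ≤ η ^ 2 * L * M := by
            have : η ^ 2 * M * 1 ≤ η ^ 2 * M * L := by gcongr
            linarith
    calc 2 * x / M * (1 / φ * (K * y ^ 3) ^ (k + 1))
        = x / (M * φ) * (2 * (K * y ^ 3) ^ (k + 1)) := by field_simp
      _ ≤ x / (M * φ) * (η ^ 2 * L * M) := by gcongr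
      _ = η ^ 2 * (x * L) / φ := by field_simp
  -- the second term
  have hz : Real.exp ((y ^ 3 - 1) / 32) ≤ (zx x : ℝ) ^ (1 / 32 : ℝ) := by
    have e1 : Real.exp (y ^ 3 - 1) ≤ (zx x : ℝ) := by
      have e2 : Real.exp (√L) < (⌊Real.exp (√L)⌋₊ : ℝ) + 1 := Nat.lt_floor_add_one _
      unfold zx
      try rw [← hLd]
      rw [hy3] at e2 ⊢
      have e3 : Real.exp (y ^ 3) = Real.exp 1 * Real.exp (y ^ 3 - 1) := by
        rw [← Real.exp_add]; ring_nf
      have e4 : 1 ≤ Real.exp (y ^ 3 - 1) := by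
        apply Real.one_le_exp
        have : 1 ≤ y ^ 3 := one_le_pow₀ hy1
        linarith
      have e5 := Real.exp_one_gt_d9
      rw [e3] at e2 ⊢
      nlinarith
    calc Real.exp ((y ^ 3 - 1) / 32) = Real.exp (y ^ 3 - 1) ^ (1 / 32 : ℝ) := by
          rw [← Real.exp_mul]; ring_nf
      _ ≤ (zx x : ℝ) ^ (1 / 32 : ℝ) := by
          apply Real.rpow_le_rpow (Real.exp_pos _).le e1 (by norm_num)
  set Z : ℝ := (zx x : ℝ) ^ (1 / 32 : ℝ) with hZd
  have hZ0 : 0 < Z := lt_of_lt_of_le (Real.exp_pos _) hz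
  have hTM : T ≤ 6 * L ^ 3 * (2 * Real.exp 1) ^ k * M := by
    have e1 : (2 * L / k) ^ (k + 1) ≤ 2 * L * ((2 * Real.exp 1) ^ k * M) := by
      have e2 : (2 * L / k) ^ k = (2 * Real.exp 1) ^ k * (L / (Real.exp 1 * k)) ^ k := by
        rw [← mul_pow]; congr 1; field_simp
      have e3 : 2 * L / k ≤ 2 * L := div_le_self (by positivity) hk1
      rw [pow_succ, e2]
      calc (2 * Real.exp 1) ^ k * (L / (Real.exp 1 * k)) ^ k * (2 * L / k)
          ≤ (2 * Real.exp 1) ^ k * M * (2 * L) := by gcongr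
        _ = 2 * L * ((2 * Real.exp 1) ^ k * M) := by ring
    have e4 : 1 + 2 * L / k ≤ 3 * L := by
      have e3 : 2 * L / k ≤ 2 * L := div_le_self (by positivity) hk1
      linarith
    calc T ≤ (k + 1) * (2 * L / k) ^ (k + 1) * (1 + 2 * L / k) := HT
      _ ≤ L * (2 * L * ((2 * Real.exp 1) ^ k * M)) * (3 * L) := by gcongr
      _ = 6 * L ^ 3 * (2 * Real.exp 1) ^ k * M := by ring
  have hη3 : 1 ≤ η ^ 3 * L ^ (3 * B) := by
    calc (1 : ℝ) = 1 ^ 3 := by norm_num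
      _ ≤ (η * L ^ B) ^ 3 := by gcongr
      _ = η ^ 3 * L ^ (3 * B) := by rw [mul_pow, ← pow_mul]; ring_nf
  have t2 : 2 * x / M * (K * T / (η * Z)) ≤ η ^ 2 * (x * L) / φ := by
    have e1 : 2 * K * T * φ ≤ η ^ 3 * L * M * Z := by
      have e2 : 12 * K * q0 * Real.exp (y ^ 2) * L ^ (3 * B + 3) * (2 * Real.exp 1) ^ k ≤ Z :=
        le_trans hdd hz
      have e3 : 0 ≤ η ^ 3 * M := by positivity
      calc 2 * K * T * φ
          ≤ 2 * K * (6 * L ^ 3 * (2 * Real.exp 1) ^ k * M) * (q0 * Real.exp (y ^ 2)) := by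
            gcongr
        _ = 1 * (12 * K * q0 * Real.exp (y ^ 2) * L ^ 3 * (2 * Real.exp 1) ^ k * M) := by ring
        _ ≤ (η ^ 3 * L ^ (3 * B)) *
              (12 * K * q0 * Real.exp (y ^ 2) * L ^ 3 * (2 * Real.exp 1) ^ k * M) := by gcongr
        _ = η ^ 3 * M *
            (12 * K * q0 * Real.exp (y ^ 2) * L ^ (3 * B + 3) * (2 * Real.exp 1) ^ k) := by
            rw [pow_add]; ring
        _ ≤ η ^ 3 * M * Z := by gcongr
        _ = η ^ 3 * 1 * M * Z := by ring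
        _ ≤ η ^ 3 * L * M * Z := by gcongr
    calc 2 * x / M * (K * T / (η * Z)) = x / (M * (η * Z) * φ) * (2 * K * T * φ) := by
          field_simp
      _ ≤ x / (M * (η * Z) * φ) * (η ^ 3 * L * M * Z) := by gcongr
      _ = η ^ 2 * (x * L) / φ := by field_simp
  -- the third term
  have t3 : 2 * x / M * (K * η / φ * L * M * Real.exp (-(2 * (k : ℝ)))) ≤ η ^ 2 * (x * L) / φ := by
    have e1 : 2 * K * Real.exp (-(2 * (k : ℝ))) ≤ η := by
      have e2 : 2 * K * Real.exp (-(2 * (k : ℝ))) ≤ 1 / L ^ B := by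
        rw [le_div_iff₀ hLB]; exact he
      exact le_trans e2 hη1
    calc 2 * x / M * (K * η / φ * L * M * Real.exp (-(2 * (k : ℝ))))
        = η * (x * L) / φ * (2 * K * Real.exp (-(2 * (k : ℝ)))) := by field_simp
      _ ≤ η * (x * L) / φ * η := by gcongr
      _ = η ^ 2 * (x * L) / φ := by ring
  calc |Dv x (q0 * d) a v η - Dv x 1 0 v η / φ|
      ≤ 2 * x / M * S + CA * η ^ 2 * (x * L) / φ := HA
    _ ≤ 2 * x / M * (1 / φ * (K * y ^ 3) ^ (k + 1) + K * T / (η * Z)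
          + K * η / φ * L * M * Real.exp (-(2 * (k : ℝ)))) + CA * η ^ 2 * (x * L) / φ := by
        gcongr
    _ = 2 * x / M * (1 / φ * (K * y ^ 3) ^ (k + 1)) + 2 * x / M * (K * T / (η * Z))
          + 2 * x / M * (K * η / φ * L * M * Real.exp (-(2 * (k : ℝ))))
          + CA * η ^ 2 * (x * L) / φ := by ring
    _ ≤ η ^ 2 * (x * L) / φ + η ^ 2 * (x * L) / φ + η ^ 2 * (x * L) / φ
          + CA * η ^ 2 * (x * L) / φ := by linarith
    _ = (CA + 3) * η ^ 2 * (x * L) / φ := by ring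

end Pool.Agent.Helper15.TW
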