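import Pool.Agent.Helper70.TW.Goals

/-!
# Project TW, packet TPMZ
-/

namespace Pool.Agent.Helper15.TW

open MvPolynomial Pool.Agent.Helper70.BU Pool.Agent.Helper70.TW

universe u

theorem lin_ne {κ : Type} [Fintype κ] [DecidableEq κ] (c : κ → ℤ) {k : κ} (hk : c k ≠ 0) :
    (∑ j, C (c j) * X j : MvPolynomial κ ℤ) ≠ 0 := by
  intro h
  have h1 := congrArg (coeff (Finsupp.single k 1)) h
  rw [coeff_sum, coeff_zero, Finset.sum_eq_single k] at h1
  · rw [coeff_C_mul, coeff_X, if_pos rfl, mul_one] at h1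
    exact hk h1
  · intro j _ hj
    rw [coeff_C_mul, coeff_X, if_neg, mul_zero]
    intro h2
    exact hj (Finsupp.single_left_injective one_ne_zero h2)
  · intro h2
    exact absurd (Finset.mem_univ k) h2

theorem lin_hom {κ : Type} [Fintype κ] (c : κ → ℤ) :
    (∑ j, C (c j) * X j : MvPolynomial κ ℤ).IsHomogeneous 1 := by
  refine IsHomogeneous.sum _ _ _ fun j _ => ?_
  have := (isHomogeneous_C κ (c j)).mul (isHomogeneous_X ℤ j)
  simpa using this

theorem tpmz : BURC.{u} → TPMZ.{u} := by
  intro hB R _ _ ι κ Λ _ _ _ _ _ b α β hne hlt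
  have hlt' : ∀ k, Fintype.card Λ < bn b k := by
    intro k
    have := hlt k
    simpa using this
  set G : MvPolynomial κ ℤ := ∏ l, ∑ k, C ((α l k : ℤ) - (β l k : ℤ)) * X k with hG
  have hG0 : G ≠ 0 := by
    rw [hG, Finset.prod_ne_zero_iff]
    intro l _
    obtain ⟨k, hk⟩ : ∃ k, α l k ≠ β l k := by
      by_contra h
      push Not at h
      exact hne l (funext h)
    refine lin_ne (fun k => (α l k : ℤ) - (β l k : ℤ)) (k := k) ?_
    intro h
    apply hk
    have : (α l k : ℤ) = β l k := by linarith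
    exact_mod_cast this
  have hGh : G.IsHomogeneous (Fintype.card Λ) := by
    have h1 := IsHomogeneous.prod (Finset.univ : Finset Λ)
      (fun l => (∑ k, C ((α l k : ℤ) - (β l k : ℤ)) * X k : MvPolynomial κ ℤ)) (fun _ => 1)
      (fun l _ => lin_hom _)
    rw [Finset.sum_const, smul_eq_mul, mul_one, Finset.card_univ] at h1
    exact h1
  obtain ⟨d, hd⟩ : ∃ d, coeff d G ≠ 0 := by
    by_contra h
    push Not at h
    exact hG0 (MvPolynomial.ext _ _ fun d => by rw [h d, coeff_zero])
  have hdeg : d.degree = Fintype.card Λ := by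
    by_contra h
    exact hd (hGh.coeff_eq_zero h)
  have hsum : ∑ k, d k = Fintype.card Λ := by
    rw [← hdeg, Finsupp.degree_eq_sum]
  refine hB R ι κ Λ b α β (fun k => d k) (fun k => ?_) hsum ?_
  · refine lt_of_le_of_lt ?_ (hlt' k)
    rw [← hsum]
    exact Finset.single_le_sum (f := fun k => d k) (fun _ _ => Nat.zero_le _) (Finset.mem_univ k)
  · have e : Finsupp.equivFunOnFinite.symm (fun k => d k) = d := by
      ext k
      rfl
    rw [e]
    exact hd

end Pool.Agent.Helper15.TW
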